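import Pool.Agent.Q5.WS.Re

/-!
# The residues of Frobenius averages in fibrations: the fields with cyclic upper part decide

`𝒳 → 𝒴` is a fibration over a number field `K`, given over an open part of the base by equations, as in
`Pool.Agent.W353.FB.Defs`; `V` is the space `NS(X) ⊗ ℚ` for the generic fibre `X`, of the classes of the divisors
defined over `K̄(𝒴)`, with the action of the absolute Galois group of `K` (the theorem holds for every finite
dimensional representation `V`); the rank of `NS(X / F(𝒴))` is the dimension of the space of the invariants of the
absolute Galois group of `F`.  `Residue` over `F`: `∑ 𝔅_v (log q_v) q_v^{-s}` converges absolutely for `Re s > 2` and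
is `rank / (s - 2)` plus an analytic function near `s = 2`.
-/

set_option autoImplicit false

namespace Pool.Agent.Results.MP_6090f9_nt.CyclicSubextensions

open Pool.Agent.Q5.WS.Re

/-- Let `L/K` be a finite Galois extension.  If the assertion holds for the fields `E` between `K` and `L` with `L/E`
cyclic, it holds for `K`. -/
theorem result : CyclicLaw :=
  cyclic

end Pool.Agent.Results.MP_6090f9_nt.CyclicSubextensions
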