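import Pool.Agent.Q45.HF.Ns3

/-!
# The residue formula for Frobenius averages on `H²` for products over nets of hyperelliptic curves

Let `k` be a number field, `O` a finitely generated `𝓞_k`-algebra, `V = Spec O`, and
`f ∈ O[u][X]` a monic polynomial of degree `2 g + 1 ≥ 3` in `X`, where `u = (u_t : t ∈ τ)` are
variables. We consider the curves `C : Y² = F(X)`, `F = f + h_1 X + h_0`, where `h_0`, `h_1` are two
more variables (`fam f r`; for `O = 𝓞_k` and `f = X ^ (2g+1) + u_1 X ^ (2g-1) + ... + u_(2g-2) X ^ 2`
this is the universal curve of genus `g` with a rational Weierstrass point). The ring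

`FR f r = O[u, h_0, h_1, x_1, ..., x_r][y_1, ..., y_r] / (y_i² = F(x_i))`

is the coordinate ring of the `r`-th fibre power of the family of the affine curves; let `𝒴` be a
smooth projective model of its fraction field `K`, of dimension `m = dim V_k + #τ + r + 2`.

The fibres of our fibrations over `𝒴` are the products `X = C^n × J^l × Sym^{n_1} C × ... × Sym^{n_t} C`,
where `J` is the Jacobian of `C` and `n_i ≥ 2` (and the varieties obtained from them by blowing up smooth
subvarieties which are geometrically irreducible, or as projective bundles over them). By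
the Künneth formula and by `H²(J) = Λ² H¹(C)`, `H²(Sym^n C) = Q(-1) ⊕ Λ² H¹(C)` we have

`H²(X) = Q(-1)^a ⊕ (Λ² H¹(C))^b ⊕ (H¹(C) ⊗ H¹(C))^c`

with `a = n + t`, `b = l + t`, `c = (n + l + t choose 2)`, so the trace of Frobenius on `H²` of the fibre
over a point with values in a finite field is `trH a b c` in the Lean text; and since `End J = ℤ` by (3)
below, because `rank J(K(C)) = rank J(K) + 1`, the rank of `NS(X/K)` is `a + b + c`.

`averageHAt` is the fibre average `𝔅_v`, over the points of the affine model with values in the residue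
field of `v` above which the curve is smooth (the other points of a projective model change it by `O(1)`,
which does not affect the residue at `s = 2`).
-/

set_option autoImplicit false

open Polynomial NumberField IsDedekindDomain

namespace Pool.Agent.Results.MP_6090f9_nt.ProductsOfHyperellipticFibres

open Q45.HF Pool.Agent.TH943.HJ
open Pool.Agent.Y707.PR (HasResidue series)

/-- The abelian group `A` is free of finite rank `m`. -/
def FreeOfRank (A : Type) [AddCommGroup A] (m : ℕ) : Prop :=
  Module.Free ℤ A ∧ Module.Finite ℤ A ∧ Module.finrank ℤ A = m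

/-- The ring `A` is a Dedekind domain and its class group is a free abelian group of finite rank `m`. -/
def ClassRank (A : Type) [CommRing A] (m : ℕ) : Prop :=
  ∃ _ : IsDedekindDomain A, FreeOfRank (Additive (ClassGroup A)) m

/-- The class group of `K[X, Y] / (Y² - F)`, which is the group `J(K)`, is a free abelian group of finite
rank `m`. -/
def JacobianRank {K : Type} [Field K] (F : K[X]) (m : ℕ) : Prop := ClassRank (CR F) m

/-- The ring of the `r`-th fibre power is a domain, and over its field of fractions `K` the curve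
`Y² = F(X)` is smooth and the group `J(K)` is free abelian of rank `r`. -/
def GenericRank {E τ : Type} [CommRing E] (f : (MvPolynomial τ E)[X]) (r : ℕ) : Prop :=
  IsDomain (FR f r) ∧ ∀ (K : Type) [Field K] [Algebra (FR f r) K] [IsFractionRing (FR f r) K],
    Good f (algebraMap (FR f r) K) ∧ JacobianRank (fib f (algebraMap (FR f r) K)) r

/-- The analytic statements for the fibre averages `b_v`: the residue at `s = 2` is `ρ`, and
`∑ b_v (log q_v) q_v^(-s) - ρ ∑ (log q_v) q_v^(1-s)` is analytic for `Re s > 3/2`. -/
def Residues {k : Type} [Field k] [NumberField k] (b : HeightOneSpectrum (𝓞 k) → ℝ) (ρ : ℕ) : Prop :=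
  ∀ R : Finset (HeightOneSpectrum (𝓞 k)), HasResidue R b 2 ρ ∧ ∃ G : ℂ → ℂ,
    (∀ s : ℂ, 3 / 2 < s.re → AnalyticAt ℂ G s) ∧
    ∀ s : ℂ, 2 < s.re → series R b s = ρ * series R (fun _ => 1) (s - 1) + G s

/-- **The residue formula for the Frobenius averages on `H²`.** Let `g ≥ 1` and `r, a, b, c ≥ 0`.
(1) There is a constant `C` such that for every commutative ring `O`, every monic `f` of degree
`2 g + 1` in `X` over `O[u]` and every point `ψ` of `Spec O` with values in a finite field with `q`
elements, `q` odd, the average of the traces of Frobenius on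
`Q(-1)^a ⊕ (Λ² H¹)^b ⊕ (H¹ ⊗ H¹)^c` over the points of the base above `ψ` is `(a + b + c) q` up to
`C q ^ (1/2)`.
(2) If `O` is a finitely generated algebra over the ring of integers of a number field `k` which
satisfies the estimate of Lang and Weil, then `Res_{s=2} ∑ 𝔅_v (log q_v) q_v^(-s) = a + b + c`.
(3) The group `J(K)` is free abelian of rank `r`, for every domain `E` of characteristic zero in the
place of `O`.
(4) The estimate of Lang and Weil holds for `O = 𝓞_k` (the base is an affine space). -/
theorem result (g r a b c : ℕ) (hg : 1 ≤ g) :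
    (∃ C : ℝ, ∀ (O τ : Type) [CommRing O] [Fintype τ] (f : (MvPolynomial τ O)[X]), f.Monic →
      f.natDegree = 2 * g + 1 → ∀ (F : Type) [Field F] [Finite F], ringChar F ≠ 2 →
      ∀ ψ : O →+* F, |averageH f r a b c ψ / Nat.card F - (a + b + c : ℕ)| ≤
        C * (Nat.card F : ℝ) ^ (-(1 / 2) : ℝ)) ∧
    (∀ (k : Type) [Field k] [NumberField k] (O : Type) [CommRing O] (ι : 𝓞 k →+* O) (e : ℕ),
      ι.FiniteType → LangWeil ι e → ∀ (τ : Type) [Fintype τ] (f : (MvPolynomial τ O)[X]), f.Monic →
      f.natDegree = 2 * g + 1 → Residues (averageHAt ι e f r a b c) (a + b + c)) ∧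
    (∀ (E τ : Type) [CommRing E] [IsDomain E] [CharZero E] (f : (MvPolynomial τ E)[X]), f.Monic →
      f.natDegree = 2 * g + 1 → GenericRank f r) ∧
    (∀ (k : Type) [Field k] [NumberField k], LangWeil (RingHom.id (𝓞 k)) 0) := by
  refine ⟨?_, ?_, ?_, fun k _ _ => langWeil_self⟩
  · obtain ⟨C, hC, hb⟩ := averageH_bound (2 * g + 1) r a b c
    exact ⟨C, fun O τ _ _ f hf hd F _ _ hF ψ => hb O τ f hf (by omega) (hd ▸ ⟨g, rfl⟩) hd F hF ψ⟩
  · intro k _ _ O _ ι e hι hLW τ _ f hf hd R
    obtain ⟨K, hK, h⟩ := averageHAt_bound (r := r) hι hLW hf (by omega) (hd ▸ ⟨g, rfl⟩) a b c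
    exact residue_two hK h R
  · intro E τ _ _ _ f hf hd
    refine ⟨FR_domain _ (by omega), fun K _ _ _ => ?_⟩
    obtain ⟨a1, a2, a3, a4, a5⟩ := rank_final (r := r) hf (by omega) (hd ▸ ⟨g, rfl⟩) K
    exact ⟨a1, a2, a3, a4, a5⟩

end Pool.Agent.Results.MP_6090f9_nt.ProductsOfHyperellipticFibres
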