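import Pool.Agent.Q5.WS.Re

/-!
# The residues of Frobenius averages in fibrations: wide families of number fields decide

`𝒳 → 𝒴` is a fibration over a number field `K`, given over an open part of the base by equations, as in
`Pool.Agent.W353.FB.Defs`; `V` is the space `NS(X) ⊗ ℚ` for the generic fibre `X`, of the classes of the divisors
defined over `K̄(𝒴)`, with the action of the absolute Galois group of `K` (the theorem holds for every finite
dimensional representation `V`); the rank of `NS(X / F(𝒴))` is the dimension of the space of the invariants of the
absolute Galois group of `F`.  `Residue` over `F`: `∑ 𝔅_v (log q_v) q_v^{-s}` converges absolutely for `Re s > 2` and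
is `rank / (s - 2)` plus an analytic function near `s = 2`.
-/

set_option autoImplicit false

namespace Pool.Agent.Results.MP_6090f9_nt.WideFamiliesOfFields

open Pool.Agent.Q5.WS.Re

/-- (1) Let `𝓕` be a wide family of finite extensions of `K`.  If the assertion holds for all `F` in `𝓕`, it holds for
`K`.  (2) The intersection of two wide families is wide, and the extensions of degree divisible by `M` form a wide
family.  (3) Let `M > 0`.  If the assertion holds for all finite extensions `F/K` with `M ∣ [F:K]`, it holds for all
finite extensions of `K`. -/
theorem result : WideLaw ∧ WideExamples ∧ DegreeLaw :=
  ⟨wide, wideEx, degree⟩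

end Pool.Agent.Results.MP_6090f9_nt.WideFamiliesOfFields
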